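import Pool.Agent.Helper18.Katz9

/-!
MP_0aa406_nt: asymptotically sharp upper bound for the digit form of `V_{F,d}`, large prime
degree (or a multiple of it), large characteristic.
-/

set_option autoImplicit false

namespace Pool.Agent.Helper18.Retired.KatzAsymptoticHalf

/-- For every `ε > 0` and every sufficiently large prime `l`, if `p` is a prime which is large in
terms of `l` and `ε`, `n` is a multiple of `l` and `d` is coprime to `p ^ n - 1` and not a power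
of `p` modulo `p ^ l - 1`, then there are `0 < a < p ^ n - 1` and `0 ≤ b < p ^ n - 1` with
`b ≡ - d a` modulo `p ^ n - 1` whose base-`p` digit sums add up to at most
`(1/2 + ε) n (p - 1)`. -/
theorem result : ∀ ε : ℝ, 0 < ε → ∃ N : ℕ, ∀ l : ℕ, l.Prime → N ≤ l →
    ∃ P : ℕ, ∀ p : ℕ, p.Prime → P ≤ p → ∀ n : ℕ, 0 < n → l ∣ n → ∀ d : ℕ,
      Nat.Coprime d (p ^ n - 1) → (∀ k : ℕ, ¬ d ≡ p ^ k [MOD p ^ l - 1]) →
      ∃ a b : ℕ, 0 < a ∧ a < p ^ n - 1 ∧ b < p ^ n - 1 ∧ (p ^ n - 1) ∣ d * a + b ∧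
        (((Nat.digits p a).sum + (Nat.digits p b).sum : ℕ) : ℝ) ≤
          (1 / 2 + ε) * n * ((p : ℝ) - 1) := by
  intro ε hε
  obtain ⟨N, hN⟩ := Pool.Agent.Helper18.Katz.asymptotic ε hε
  refine ⟨N, fun l hl hNl => ?_⟩
  obtain ⟨P, hP⟩ := hN l hl hNl
  exact ⟨P, fun p _ hp => hP p hp⟩

end Pool.Agent.Helper18.Retired.KatzAsymptoticHalf
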