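import Pool.Agent.Helper18.Katz10

/-!
MP_0aa406_nt: explicit upper bound for the digit form of `V_{F,d}` for every prime degree and large
characteristic; it is the bound asked for in Q1 when the prime is at most 19.
-/

set_option autoImplicit false

namespace Pool.Agent.Helper18.Retired.KatzUniformBound

/-- For every prime `l ≥ 5`, if `p` is a prime which is large in terms of `l`, `n` is a multiple of
`l` and `d` is coprime to `p ^ n - 1` and not a power of `p` modulo `p ^ l - 1`, then there are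
`0 < a < p ^ n - 1` and `0 ≤ b < p ^ n - 1` with `b ≡ - d a` modulo `p ^ n - 1` whose base-`p` digit
sums add up to at most `((l + 1) / (2 l) + ⌊(l - 11) / 12⌋ / l) n (p - 1)`, the floor being `0` for
`l ≤ 19`. -/
theorem result : ∀ l : ℕ, l.Prime → 5 ≤ l →
    ∃ P : ℕ, ∀ p : ℕ, p.Prime → P ≤ p → ∀ n : ℕ, 0 < n → l ∣ n → ∀ d : ℕ,
      Nat.Coprime d (p ^ n - 1) → (∀ k : ℕ, ¬ d ≡ p ^ k [MOD p ^ l - 1]) →
      ∃ a b : ℕ, 0 < a ∧ a < p ^ n - 1 ∧ b < p ^ n - 1 ∧ (p ^ n - 1) ∣ d * a + b ∧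
        2 * l * ((Nat.digits p a).sum + (Nat.digits p b).sum) ≤
          (l + 1 + 2 * ((l - 11) / 12)) * n * (p - 1) := by
  intro l hl hl5
  have hne : NeZero l := ⟨hl.ne_zero⟩
  obtain ⟨k, hk⟩ : ∃ k, l = 2 * k + 1 := by
    rcases hl.eq_two_or_odd' with h | h
    · omega
    · obtain ⟨s, hs⟩ := h; exact ⟨s, hs⟩
  have hkz : (l : ℤ) = 2 * k + 1 := by exact_mod_cast hk
  obtain ⟨P, hP⟩ := Pool.Agent.Helper18.Katz.main_of_val l hl (by omega)
    ((k : ℤ) - ((l - 11) / 12 : ℕ)) (by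
      have : (0 : ℤ) ≤ (((l - 11) / 12 : ℕ) : ℤ) := by positivity
      linarith) (fun m hm _ => Pool.Agent.Helper18.Katz.hasVal_main hl hl5 k hk m hm)
  refine ⟨P, fun p hpp hp n hn hln d hd hnd => ?_⟩
  obtain ⟨a, b, h2, h3, h4, h5, h6⟩ := hP p hp n hn hln d hd hnd
  refine ⟨a, b, h2, h3, h4, h5, ?_⟩
  generalize (Nat.digits p a).sum + (Nat.digits p b).sum = S at h6 ⊢
  generalize (l - 11) / 12 = κ at h6 ⊢
  have h7 : ((2 * l * S : ℕ) : ℤ) ≤ (((l + 1 + 2 * κ) * n * (p - 1) : ℕ) : ℤ) := by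
    push_cast [Nat.cast_sub hpp.one_le]
    have e1 : (l : ℤ) - ((k : ℤ) - κ) = k + 1 + κ := by linarith
    rw [e1] at h6
    have e2 : (l : ℤ) + 1 + 2 * κ = 2 * (k + 1 + κ) := by linarith
    rw [e2]
    nlinarith
  exact_mod_cast h7

end Pool.Agent.Helper18.Retired.KatzUniformBound
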